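import Pool.Agent.X32.Pow.Main

/-!
# The integers which are not sums of powers of the initial primes

A positive integer `n` is representable if `n = 2 ^ α₁ + 3 ^ α₂ + ⋯ + p_L ^ α_L` for some `L ≥ 1` and some
`α_j ≥ 1`, where `p_j` is the `j`-th prime. The only positive integers which are not representable are
`1, 3, 6, 9, 14, 15, 20, 21, 26, 27, 33`. In particular `33` is the largest one.

Proof: let `R_L` be the set of the sums with `L` primes. It contains all `n ≡ L + 1 (mod 2)` between `a_L` and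
`b_L`, where `a_10 = 245`, `b_10 = 5000243` (computation with bit masks), `a_{L+1} = a_L + p_{L+1}`,
`b_{L+1} = b_L + p_{L+1} ^ 2`. The induction step needs `p_{L+1} ^ 2 - p_{L+1} ≤ b_L - a_L + 1`, which follows
from an explicit Chebyshev bound for `p_{L+1}`.
-/

set_option autoImplicit false

namespace Pool.Agent.Results.MP_9f71e8_nt.AllExceptions

/-- `n = 2 ^ α₁ + 3 ^ α₂ + ⋯ + p_L ^ α_L` for some `L ≥ 1` and some exponents `α_j ≥ 1`
(`Nat.nth Nat.Prime 0 = 2`, `Nat.nth Nat.Prime 1 = 3`, and so on) -/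
def Representable (n : ℕ) : Prop :=
  ∃ (L : ℕ) (α : Fin L → ℕ), 1 ≤ L ∧ (∀ j, 1 ≤ α j) ∧ n = ∑ j : Fin L, Nat.nth Nat.Prime j ^ α j

lemma rep_iff (n : ℕ) : Representable n ↔ ∃ L, 1 ≤ L ∧ Pool.Agent.X32.Pow.Rep L n := by
  constructor
  · rintro ⟨L, α, hL, h1, h2⟩
    refine ⟨L, hL, fun j => if h : j < L then α ⟨j, h⟩ else 1, fun j => ?_, ?_⟩
    · by_cases h : j < L
      · simp only [h, dif_pos]
        exact h1 _
      · simp only [h, dif_neg, not_false_eq_true]
        exact le_rfl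
    · rw [h2, ← Fin.sum_univ_eq_sum_range (fun j => Nat.nth Nat.Prime j ^ (if h : j < L then α ⟨j, h⟩ else 1)) L]
      apply Finset.sum_congr rfl
      intro j _
      simp
  · rintro ⟨L, hL, α, h1, h2⟩
    refine ⟨L, fun j => α j, hL, fun j => h1 j, ?_⟩
    rw [h2, ← Fin.sum_univ_eq_sum_range (fun j => Nat.nth Nat.Prime j ^ α j) L]

/-- The positive integers which are not representable are exactly
`1, 3, 6, 9, 14, 15, 20, 21, 26, 27` and `33`. -/
theorem result : {n : ℕ | 0 < n ∧ ¬ Representable n} = {1, 3, 6, 9, 14, 15, 20, 21, 26, 27, 33} := by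
  ext n
  simp only [Set.mem_ofPred_eq, Set.mem_insert_iff, Set.mem_singleton_iff]
  have hexc : n ∈ Pool.Agent.X32.Pow.exc ↔ n = 1 ∨ n = 3 ∨ n = 6 ∨ n = 9 ∨ n = 14 ∨ n = 15 ∨ n = 20 ∨ n = 21 ∨
      n = 26 ∨ n = 27 ∨ n = 33 := by
    simp only [Pool.Agent.X32.Pow.exc, List.mem_cons, List.not_mem_nil, or_false]
  rw [← hexc, rep_iff]
  constructor
  · rintro ⟨h1, h2⟩
    rw [Pool.Agent.X32.Pow.final n h1, not_not] at h2
    exact h2
  · intro h
    have h0 : 0 < n := by
      have := hexc.1 h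
      omega
    refine ⟨h0, ?_⟩
    rw [Pool.Agent.X32.Pow.final n h0, not_not]
    exact h

end Pool.Agent.Results.MP_9f71e8_nt.AllExceptions
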